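import Mathlib

/-!
# Idempotents of transvection quandle rings

For an alternating form `ω` on a free abelian group `V`, the set `V/±` carries the product
`[x] * [y] = [x + ω(x, y) y]`.  We show that idempotents of its integral (non-associative) ring
are supported on pairwise `ω`-orthogonal classes.
-/

namespace Pool.Agent.Lib.H69.Transvection

universe u

/-- The combinatorial heart: a finite symmetric set `S` of vectors with some nonzero pairing has a
pair `(x, y)` such that `x + ω x y • y` lies outside `S` and has a unique presentation. -/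
theorem exists_unique_product {V W : Type*} [AddCommGroup V] [AddCommGroup W] [LinearOrder W]
    [IsOrderedAddMonoid W] (ω : V →+ V →+ ℤ) (halt : ∀ x, ω x x = 0) (f : V →+ W)
    (hf : Function.Injective f) (S : Finset V) (hS : ∀ x ∈ S, -x ∈ S)
    (hne : ∃ x ∈ S, ∃ y ∈ S, ω x y ≠ 0) :
    ∃ x ∈ S, ∃ y ∈ S, 0 < ω x y ∧ x + ω x y • y ∉ S ∧
      ∀ x' ∈ S, ∀ y' ∈ S, 0 < ω x' y' → x' + ω x' y' • y' = x + ω x y • y → x' = x ∧ y' = y := by
  classical
  have hskew : ∀ x y, ω x y = - ω y x := by
    intro x y
    have h := halt (x + y)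
    simp only [map_add, AddMonoidHom.add_apply, halt] at h
    linarith
  -- maximal value of the form
  obtain ⟨x₀, hx₀, y₀, hy₀, h₀⟩ := hne
  have hne1 : (S ×ˢ S).Nonempty := ⟨(x₀, y₀), Finset.mem_product.2 ⟨hx₀, hy₀⟩⟩
  obtain ⟨⟨x₁, y₁⟩, hxy₁, hmax₁⟩ := (S ×ˢ S).exists_max_image (fun q => ω q.1 q.2) hne1
  set m : ℤ := ω x₁ y₁ with hm
  have hle : ∀ x ∈ S, ∀ y ∈ S, ω x y ≤ m := fun x hx y hy =>
    hmax₁ (x, y) (Finset.mem_product.2 ⟨hx, hy⟩)
  have hge : ∀ x ∈ S, ∀ y ∈ S, -m ≤ ω x y := by
    intro x hx y hy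
    have := hle _ (hS x hx) y hy
    simp only [map_neg, AddMonoidHom.neg_apply] at this
    linarith
  have hmpos : 0 < m := by
    by_contra hcon
    have h1 := hle x₀ hx₀ y₀ hy₀
    have h2 := hge x₀ hx₀ y₀ hy₀
    apply h₀
    omega
  -- among the maximal pairs choose the largest product
  set M : Finset (V × V) := (S ×ˢ S).filter (fun q => ω q.1 q.2 = m) with hM
  have hMne : M.Nonempty := ⟨(x₁, y₁), by rw [hM, Finset.mem_filter]; exact ⟨hxy₁, hm.symm⟩⟩
  obtain ⟨⟨x, y⟩, hxy, hmax⟩ := M.exists_max_image (fun q => f (q.1 + m • q.2)) hMne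
  rw [hM, Finset.mem_filter, Finset.mem_product] at hxy
  obtain ⟨⟨hx, hy⟩, hxym⟩ := hxy
  simp only at hx hy hxym
  have hmax' : ∀ x' ∈ S, ∀ y' ∈ S, ω x' y' = m → f (x' + m • y') ≤ f (x + m • y) := by
    intro x' hx' y' hy' h
    refine hmax (x', y') ?_
    rw [hM, Finset.mem_filter, Finset.mem_product]
    exact ⟨⟨hx', hy'⟩, h⟩
  set g : V := x + m • y with hg
  have hωgy : ω g y = m := by
    rw [hg]; simp [halt, hxym]
  have hωgx : ω g x = -(m * m) := by
    rw [hg]; simp [halt, hskew y x, hxym]
  have hg0 : 0 < f g := by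
    have h1 : f (-g) ≤ f g := by
      have := hmax' (-x) (hS x hx) (-y) (hS y hy) (by simp [hxym])
      have e : -g = -x + m • -y := by rw [hg]; simp [smul_neg]; abel
      rw [e]; exact this
    rw [map_neg] at h1
    have h2 : 0 ≤ f g := by
      by_contra hc
      push Not at hc
      have : 0 < - f g := neg_pos.2 hc
      exact absurd (lt_of_lt_of_le this h1) (not_lt.2 hc.le)
    refine lt_of_le_of_ne h2 ?_
    intro h3
    have : g = 0 := hf (by rw [map_zero]; exact h3.symm)
    rw [this] at hωgy
    simp at hωgy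
    omega
  refine ⟨x, hx, y, hy, by rw [hxym]; exact hmpos, ?_, ?_⟩
  · -- the product is not in `S`
    rw [hxym]
    intro hgS
    have h1 := hge g hgS x hx
    rw [hωgx] at h1
    have hm1 : m = 1 := by nlinarith
    have h2 : f (g + m • y) ≤ f g := hmax' g hgS y hy hωgy
    have h3 : f (x + m • g) ≤ f g := hmax' x hx g hgS (by rw [hskew, hωgx, hm1]; norm_num)
    rw [hm1, one_smul, map_add] at h2 h3
    have h4 : f y ≤ 0 := by
      have := add_le_add_left h2 (-f g)
      simpa using h2
    have h5 : f x ≤ 0 := by simpa using h3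
    have h6 : f g = f x + f y := by rw [hg, hm1, one_smul, map_add]
    have h7 : f g ≤ 0 := by rw [h6]; exact add_nonpos h5 h4
    exact absurd hg0 (not_lt.2 h7)
  · -- uniqueness
    intro x' hx' y' hy' hpos heq
    rw [hxym] at heq
    set m' : ℤ := ω x' y' with hm'
    have hgx' : g = x' + m' • y' := heq.symm
    have hm'm : m' ≤ m := hle x' hx' y' hy'
    have hωgy' : ω g y' = m' := by
      rw [hgx']; simp [halt, hm']
    set D : ℤ := ω y y' with hD
    have hx'y : ω x' y = m + m' * D := by
      have e : x' = g - m' • y' := by rw [hgx']; abel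
      rw [e]; simp [hωgy, hskew y' y]
      exact Or.inl hD.symm
    have hxy' : ω x y' = m' - m * D := by
      have e : x = g - m • y := by rw [hg]; abel
      rw [e]; simp [hωgy']
      exact Or.inl hD.symm
    have h1 := hle x' hx' y hy
    have h2 := hle x hx y' hy'
    rw [hx'y] at h1
    rw [hxy'] at h2
    have hD0 : D = 0 := by
      have hDle : D ≤ 0 := by nlinarith
      by_contra hne
      have hD1 : D ≤ -1 := by omega
      nlinarith
    have hxx' : ω x x' = m * m - m' * m' := by
      have e : x = g - m • y := by rw [hg]; abel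
      rw [e]
      simp only [map_sub, AddMonoidHom.sub_apply, map_zsmul, AddMonoidHom.coe_smul, Pi.smul_apply]
      rw [hskew y x', hx'y, hD0]
      have : ω g x' = - (m' * m') := by
        rw [hgx']; simp [halt, hskew y' x', ← hm']
      rw [this]; simp; ring
    have h3 := hle x hx x' hx'
    rw [hxx'] at h3
    have hmm : m' = m := by
      by_contra hne
      have : m' ≤ m - 1 := by omega
      nlinarith
    rw [hmm] at hgx' hx'y hxy'
    rw [hD0] at hx'y hxy'
    have h4 : f (x + m • y') ≤ f g := hmax' x hx y' hy' (by rw [hxy']; ring)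
    have h5 : f (x' + m • y) ≤ f g := hmax' x' hx' y hy (by rw [hx'y]; ring)
    have h6 : f (x + m • y') + f (x' + m • y) = f g + f g := by
      rw [← map_add, ← map_add]
      congr 1
      conv_rhs => rw [hgx']
      nth_rewrite 2 [← hgx']
      rw [hg]; abel
    have h7 : f (x + m • y') = f g := by
      refine le_antisymm h4 ?_
      by_contra hc
      push Not at hc
      have := add_lt_add_of_lt_of_le hc h5
      rw [h6] at this
      exact lt_irrefl _ this
    have h8 : x + m • y' = x + m • y := hf h7
    have h9 : m • (y' - y) = 0 := by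
      rw [smul_sub, sub_eq_zero]
      exact add_left_cancel h8
    have h10 : y' = y := by
      have h11 : m • f (y' - y) = 0 := by rw [← map_zsmul, h9, map_zero]
      have h12 : f (y' - y) = 0 := by
        rcases lt_trichotomy (f (y' - y)) 0 with h | h | h
        · have h12 := zsmul_pos (neg_pos.2 h) hmpos
          rw [smul_neg, h11, neg_zero] at h12
          exact absurd h12 (lt_irrefl _)
        · exact h
        · have h12 := zsmul_pos h hmpos
          rw [h11] at h12
          exact absurd h12 (lt_irrefl _)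
      have : y' - y = 0 := hf (by rw [h12, map_zero])
      exact sub_eq_zero.1 this
    refine ⟨?_, h10⟩
    have : x' + m • y = x + m • y := by rw [← hg, hgx', h10]
    exact add_right_cancel this

/-- every free abelian group embeds in a linearly ordered one -/
theorem exists_order_embedding (V : Type u) [AddCommGroup V] [Module.Free ℤ V] :
    ∃ (W : Type u) (_ : AddCommGroup W) (_ : LinearOrder W) (_ : IsOrderedAddMonoid W)
      (f : V →+ W), Function.Injective f := by
  classical
  let ι := Module.Free.ChooseBasisIndex ℤ V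
  let b : Module.Basis ι ℤ V := Module.Free.chooseBasis ℤ V
  let _ : LinearOrder ι := linearOrderOfSTO WellOrderingRel
  refine ⟨Lex (ι →₀ ℤ), inferInstance, inferInstance, inferInstance,
    { toFun := fun v => toLex (b.repr v), map_zero' := by simp, map_add' := by intro x y; simp },
    ?_⟩
  intro x y h
  have h' : toLex (b.repr x) = toLex (b.repr y) := h
  exact b.repr.injective (toLex.injective h')

/-- `x ~ y` iff `x = y` or `x = -y` -/
def signSetoid (V : Type*) [AddCommGroup V] : Setoid V where
  r x y := x = y ∨ x = -y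
  iseqv :=
    { refl := fun x => Or.inl rfl
      symm := by
        rintro x y (h | h)
        · exact Or.inl h.symm
        · exact Or.inr (by rw [h, neg_neg])
      trans := by
        rintro x y z (h | h) (h' | h')
        · exact Or.inl (h.trans h')
        · exact Or.inr (h.trans h')
        · exact Or.inr (by rw [h, h'])
        · exact Or.inl (by rw [h, h', neg_neg]) }

/-- vectors up to sign -/
def TQ {V : Type*} [AddCommGroup V] (_ω : V →+ V →+ ℤ) : Type _ := Quotient (signSetoid V)

/-- class of a vector -/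
def mk {V : Type*} [AddCommGroup V] (ω : V →+ V →+ ℤ) (x : V) : TQ ω := Quotient.mk (signSetoid V) x

/-- a representative -/
noncomputable def rep {V : Type*} [AddCommGroup V] {ω : V →+ V →+ ℤ} (a : TQ ω) : V :=
  Quotient.out (s := signSetoid V) a

theorem mk_rep {V : Type*} [AddCommGroup V] {ω : V →+ V →+ ℤ} (a : TQ ω) : mk ω (rep a) = a :=
  Quotient.out_eq (s := signSetoid V) a

theorem mk_eq_mk {V : Type*} [AddCommGroup V] {ω : V →+ V →+ ℤ} {x y : V} :
    mk ω x = mk ω y ↔ x = y ∨ x = -y :=
  ⟨fun h => Quotient.exact h, fun h => Quotient.sound h⟩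

/-- the product `[x] * [y] = [x + ω(x,y) y]` -/
instance {V : Type*} [AddCommGroup V] (ω : V →+ V →+ ℤ) : Mul (TQ ω) where
  mul := Quotient.map₂ (fun x y => x + ω x y • y) (by
    rintro x x' (rfl | rfl) y y' (rfl | rfl)
    · exact Or.inl rfl
    · refine Or.inl ?_
      simp
    · refine Or.inr ?_
      simp; abel
    · refine Or.inr ?_
      simp; abel)

theorem mk_mul_mk {V : Type*} [AddCommGroup V] (ω : V →+ V →+ ℤ) (x y : V) :
    mk ω x * mk ω y = mk ω (x + ω x y • y) := rfl

/-- idempotents of the ring of the transvection quandle -/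
theorem idempotent_orthogonal {V : Type*} [AddCommGroup V] [Module.Free ℤ V] (ω : V →+ V →+ ℤ)
    (halt : ∀ x, ω x x = 0) (u : MonoidAlgebra ℤ (TQ ω)) (hu : u * u = u) (x y : V)
    (hx : u.coeff (mk ω x) ≠ 0) (hy : u.coeff (mk ω y) ≠ 0) : ω x y = 0 := by
  classical
  by_contra hne
  obtain ⟨W, _, _, _, f, hf⟩ := exists_order_embedding V
  -- the finite symmetric set of vectors whose class is in the support
  have hrep : ∀ a : TQ ω, mk ω (rep a) = a := fun a => mk_rep a
  set S : Finset V := u.coeff.support.image rep ∪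
    u.coeff.support.image (fun a => -rep a) with hSdef
  have hmemS : ∀ v : V, v ∈ S ↔ u.coeff (mk ω v) ≠ 0 := by
    intro v
    constructor
    · intro hv
      rw [hSdef, Finset.mem_union, Finset.mem_image, Finset.mem_image] at hv
      rcases hv with ⟨a, ha, rfl⟩ | ⟨a, ha, rfl⟩
      · rw [hrep]; exact Finsupp.mem_support_iff.1 ha
      · have : mk ω (-rep a) = a := by
          conv_rhs => rw [← hrep a]
          exact mk_eq_mk.2 (Or.inr rfl)
        rw [this]; exact Finsupp.mem_support_iff.1 ha
    · intro hv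
      rw [hSdef, Finset.mem_union, Finset.mem_image, Finset.mem_image]
      have h1 : mk ω (rep (mk ω v)) = mk ω v := hrep _
      rcases mk_eq_mk.1 h1 with h | h
      · exact Or.inl ⟨mk ω v, Finsupp.mem_support_iff.2 hv, h⟩
      · exact Or.inr ⟨mk ω v, Finsupp.mem_support_iff.2 hv, by rw [h, neg_neg]⟩
  have hnegmk : ∀ v : V, mk ω (-v) = mk ω v := fun v => mk_eq_mk.2 (Or.inr rfl)
  have hS : ∀ v ∈ S, -v ∈ S := by
    intro v hv
    rw [hmemS] at hv ⊢
    rwa [hnegmk]
  obtain ⟨x, hxS, y, hyS, hpos, hnot, huniq⟩ := exists_unique_product ω halt f hf S hS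
    ⟨x, (hmemS x).2 hx, y, (hmemS y).2 hy, hne⟩
  set g : V := x + ω x y • y with hg
  have hcoef : (u * u).coeff (mk ω g) = 0 := by
    rw [hu]
    by_contra h
    exact hnot ((hmemS g).2 h)
  rw [MonoidAlgebra.coeff_mul] at hcoef
  -- only one pair contributes
  have key : ∀ a b : TQ ω, u.coeff a ≠ 0 → u.coeff b ≠ 0 → a * b = mk ω g →
      a = mk ω x ∧ b = mk ω y := by
    intro a b ha hb hab
    obtain ⟨v, rfl⟩ : ∃ v, mk ω v = a := ⟨_, hrep a⟩
    obtain ⟨w, rfl⟩ : ∃ w, mk ω w = b := ⟨_, hrep b⟩
    rw [mk_mul_mk, mk_eq_mk] at hab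
    -- adjust signs
    have h0 : ω v w ≠ 0 := by
      intro h0
      rw [h0, zero_smul, add_zero] at hab
      apply hnot
      rw [hmemS]
      rcases hab with h | h
      · rw [← h]; exact ha
      · have : mk ω g = mk ω v := by rw [h, hnegmk]
        rw [this]; exact ha
    have hvS : v ∈ S := (hmemS v).2 ha
    have hwS : w ∈ S := (hmemS w).2 hb
    rcases lt_or_gt_of_ne h0 with hneg | hpos'
    · rcases hab with h | h
      · -- use `v, -w`
        have h1 := huniq v hvS (-w) (hS w hwS) (by simp; exact hneg) (by simp; exact h)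
        exact ⟨by rw [h1.1], by rw [← h1.2, hnegmk]⟩
      · have h1 := huniq (-v) (hS v hvS) w hwS (by simp; exact hneg) (by
          simp only [map_neg, AddMonoidHom.neg_apply, neg_smul]
          rw [← neg_add, h, neg_neg])
        exact ⟨by rw [← h1.1, hnegmk], by rw [h1.2]⟩
    · rcases hab with h | h
      · have h1 := huniq v hvS w hwS hpos' h
        exact ⟨by rw [h1.1], by rw [h1.2]⟩
      · have h1 := huniq (-v) (hS v hvS) (-w) (hS w hwS) (by simp; exact hpos') (by
          simp only [map_neg, AddMonoidHom.neg_apply, neg_neg, smul_neg]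
          rw [← neg_add, h, neg_neg])
        exact ⟨by rw [← h1.1, hnegmk], by rw [← h1.2, hnegmk]⟩
  have hxne : u.coeff (mk ω x) ≠ 0 := (hmemS x).1 hxS
  have hyne : u.coeff (mk ω y) ≠ 0 := (hmemS y).1 hyS
  have hsum : (u.coeff.sum fun m₁ r₁ => u.coeff.sum fun m₂ r₂ =>
      if m₁ * m₂ = mk ω g then r₁ * r₂ else 0) = u.coeff (mk ω x) * u.coeff (mk ω y) := by
    rw [Finsupp.sum, Finset.sum_eq_single (mk ω x)]
    · rw [Finsupp.sum, Finset.sum_eq_single (mk ω y)]
      · rw [if_pos]
        rw [mk_mul_mk]
      · intro b hb hne'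
        rw [if_neg]
        intro h
        exact hne' (key _ b hxne (Finsupp.mem_support_iff.1 hb) h).2
      · intro h
        exact absurd (Finsupp.mem_support_iff.2 hyne) h
    · intro a ha hne'
      rw [Finsupp.sum]
      refine Finset.sum_eq_zero fun b hb => ?_
      rw [if_neg]
      intro h
      exact hne' (key a b (Finsupp.mem_support_iff.1 ha) (Finsupp.mem_support_iff.1 hb) h).1
    · intro h
      exact absurd (Finsupp.mem_support_iff.2 hxne) h
  rw [hsum] at hcoef
  exact (mul_ne_zero hxne hyne) hcoef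

end Pool.Agent.Lib.H69.Transvection
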