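import Mathlib

namespace Pool.Agent.Lib.H69

universe u

/-- `FSym Ω` is the group of all finitary permutations of the set `Ω`, that is, of all
permutations of `Ω` that move only finitely many points, as a subgroup of the full symmetric
group of `Ω`. -/
def FSym (Ω : Type u) : Subgroup (Equiv.Perm Ω) where
  carrier := {σ | {x | σ x ≠ x}.Finite}
  one_mem' := by simp
  mul_mem' := by
    intro a b ha hb
    refine (Set.Finite.union ha hb).subset ?_
    intro x hx
    by_contra h
    rw [Set.mem_union, not_or] at h
    have h1 : a x = x := by
      by_contra hc
      exact h.1 hc
    have h2 : b x = x := by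
      by_contra hc
      exact h.2 hc
    apply hx
    rw [Equiv.Perm.mul_apply, h2, h1]
  inv_mem' := by
    intro a ha
    refine Set.Finite.subset ha ?_
    intro x hx h
    apply hx
    have := congrArg (a⁻¹ : Equiv.Perm Ω) h
    simpa using this.symm

end Pool.Agent.Lib.H69
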