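import Mathlib
import Pool.Agent.Lib.H69.FSym

/-!
# Transitive Sylow subgroups of finitary permutation groups

Let `G` act faithfully on `Ω` such that every element of `G` moves only finitely many points, and
let `S` be a maximal `p`-subgroup of `G` which is transitive on `Ω`.  We show that `G` is covered
by finite subgroups `H` in which `S ∩ H` is a (classical) Sylow `p`-subgroup, and deduce that
`S ∩ N` is a Sylow `p`-subgroup of `N`, and `S N / N` one of `G / N`, for each normal `N`.
-/

open MulAction Pointwise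

namespace Pool.Agent.Lib.H69.FinitarySylow

universe u

open Pool.Agent.Lib.H69 (FSym)

theorem mem_FSym {Ω : Type u} {σ : Equiv.Perm Ω} : σ ∈ FSym Ω ↔ {x | σ x ≠ x}.Finite := Iff.rfl

/-! ### A lemma on locally finite `p`-groups -/

theorem exists_finite_of_mem_closure {W : Type*} [Group W] {X : Set W} {u : W}
    (hu : u ∈ Subgroup.closure X) : ∃ T : Set W, T.Finite ∧ T ⊆ X ∧ u ∈ Subgroup.closure T := by
  induction hu using Subgroup.closure_induction with
  | mem x hx =>
    exact ⟨{x}, Set.finite_singleton x, by simpa using hx, Subgroup.subset_closure rfl⟩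
  | one => exact ⟨∅, Set.finite_empty, Set.empty_subset _, one_mem _⟩
  | mul x y _ _ hx hy =>
    obtain ⟨T1, h1, h1', h1''⟩ := hx
    obtain ⟨T2, h2, h2', h2''⟩ := hy
    refine ⟨T1 ∪ T2, h1.union h2, Set.union_subset h1' h2', mul_mem ?_ ?_⟩
    · exact Subgroup.closure_mono Set.subset_union_left h1''
    · exact Subgroup.closure_mono Set.subset_union_right h2''
  | inv x _ hx =>
    obtain ⟨T1, h1, h1', h1''⟩ := hx
    exact ⟨T1, h1, h1', inv_mem h1''⟩

/-- In a finite `p`-group generated by a subgroup `F` and an element `s`, if a conjugate of `s`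
lies in `F` then `s` lies in `F`. -/
theorem key_finite {W : Type*} [Group W] [Finite W] {p : ℕ} [Fact p.Prime] (hW : IsPGroup p W)
    (F : Subgroup W) (s : W) (hFs : ∀ K : Subgroup W, F ≤ K → s ∈ K → K = ⊤)
    (u : W) (h : u * s * u⁻¹ ∈ F) : s ∈ F := by
  by_cases hF : F = ⊤
  · rw [hF]; trivial
  · exfalso
    obtain ⟨M, hM, hFM⟩ := (eq_top_or_exists_le_coatom F).resolve_left hF
    have hnil : Group.IsNilpotent W := hW.isNilpotent
    have hnc : NormalizerCondition W := Group.normalizerCondition_of_isNilpotent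
    have hMn : M.Normal := Subgroup.NormalizerCondition.normal_of_coatom M hnc hM
    have hsM : s ∈ M := by
      have := hMn.conj_mem _ (hFM h) u⁻¹
      simpa [mul_assoc] using this
    exact hM.1 (hFs M hFM hsM)

/-- The same in a locally finite `p`-group, with `u` in the subgroup generated by `A` and `s`. -/
theorem key_lemma {W : Type*} [Group W] {p : ℕ} [Fact p.Prime] (hW : IsPGroup p W)
    (hlf : ∀ T : Set W, T.Finite → Finite (Subgroup.closure T))
    (A : Subgroup W) (s u : W) (hu : u ∈ Subgroup.closure ((A : Set W) ∪ {s}))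
    (h : u * s * u⁻¹ ∈ A) : s ∈ A := by
  obtain ⟨T, hT, hTX, huT⟩ := exists_finite_of_mem_closure hu
  set T' : Set W := (T ∩ (A : Set W)) ∪ {u * s * u⁻¹} with hT'
  have hT'fin : T'.Finite := (hT.inter_of_left _).union (Set.finite_singleton _)
  have hT'A : T' ⊆ (A : Set W) := by
    intro x hx
    rcases hx with hx | hx
    · exact hx.2
    · rw [Set.mem_singleton_iff] at hx; rw [hx]; exact h
  set V : Subgroup W := Subgroup.closure (T' ∪ {s}) with hV
  have hVfin : Finite V := hlf _ (hT'fin.union (Set.finite_singleton _))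
  have huV : u ∈ V := by
    refine Subgroup.closure_mono ?_ huT
    intro x hx
    rcases hTX hx with hxA | hxs
    · exact Or.inl (Or.inl ⟨hx, hxA⟩)
    · exact Or.inr hxs
  have hsV : s ∈ V := Subgroup.subset_closure (Or.inr rfl)
  have hF : Subgroup.closure T' ≤ V := Subgroup.closure_mono Set.subset_union_left
  have key := key_finite (hW.to_subgroup V) ((Subgroup.closure T').subgroupOf V) ⟨s, hsV⟩ ?_
    ⟨u, huV⟩ ?_
  · rw [Subgroup.mem_subgroupOf] at key
    exact (Subgroup.closure_le A).2 hT'A key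
  · intro K hK hsK
    rw [eq_top_iff]
    have : V ≤ K.map V.subtype := by
      refine (Subgroup.closure_le _).2 ?_
      intro x hx
      rcases hx with hx | hx
      · have hx' : x ∈ Subgroup.closure T' := Subgroup.subset_closure hx
        exact ⟨⟨x, hF hx'⟩, hK (by rw [Subgroup.mem_subgroupOf]; exact hx'), rfl⟩
      · rw [Set.mem_singleton_iff] at hx
        subst hx
        exact ⟨⟨x, hsV⟩, hsK, rfl⟩
    intro x _
    obtain ⟨y, hy, hyx⟩ := this x.2
    have : y = x := Subtype.ext hyx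
    rwa [← this]
  · rw [Subgroup.mem_subgroupOf]
    exact Subgroup.subset_closure (Or.inr rfl)

/-! ### Finite blocks of transitive finitary `p`-groups -/

section
variable {W Ω : Type*} [Group W] [MulAction W Ω]

theorem smul_mem_of_fixing {A : Set Ω} {w : W} (hw : w ∈ fixingSubgroup W Aᶜ) {a : Ω}
    (ha : a ∈ A) : w • a ∈ A := by
  by_contra h
  rw [mem_fixingSubgroup_iff] at hw
  have h1 := hw (w • a) h
  have h2 : w • a = a := smul_left_cancel w h1
  exact h (by rw [h2]; exact ha)

theorem finite_fixing [FaithfulSMul W Ω] {A : Set Ω} (hA : A.Finite) :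
    Finite (fixingSubgroup W Aᶜ) := by
  have : Finite A := hA
  let f : fixingSubgroup W Aᶜ → (A → A) := fun w a => ⟨(w : W) • (a : Ω), smul_mem_of_fixing w.2 a.2⟩
  refine Finite.of_injective f ?_
  intro w₁ w₂ h
  apply Subtype.ext
  apply FaithfulSMul.eq_of_smul_eq_smul (α := Ω)
  intro x
  by_cases hx : x ∈ A
  · have := congrFun h ⟨x, hx⟩
    exact congrArg Subtype.val this
  · have h1 := (mem_fixingSubgroup_iff W).1 w₁.2 x hx
    have h2 := (mem_fixingSubgroup_iff W).1 w₂.2 x hx
    rw [h1, h2]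

theorem finite_closure [FaithfulSMul W Ω] (hfin : ∀ w : W, {x : Ω | w • x ≠ x}.Finite)
    (T : Set W) (hT : T.Finite) : Finite (Subgroup.closure T) := by
  set A : Set Ω := ⋃ w ∈ T, {x : Ω | w • x ≠ x} with hA
  have hAfin : A.Finite := hT.biUnion fun w _ => hfin w
  have : Subgroup.closure T ≤ fixingSubgroup W Aᶜ := by
    rw [Subgroup.closure_le]
    intro w hw
    rw [SetLike.mem_coe, mem_fixingSubgroup_iff]
    intro y hy
    by_contra h
    exact hy (Set.mem_biUnion hw h)
  have hf : Finite (fixingSubgroup W Aᶜ) := finite_fixing hAfin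
  exact Finite.of_injective _ (Subgroup.inclusion_injective this)

/-- In a transitive finitary `p`-group every finite set lies in a finite block. -/
theorem exists_finite_block [FaithfulSMul W Ω] [IsPretransitive W Ω] {p : ℕ} [Fact p.Prime]
    (hW : IsPGroup p W) (hfin : ∀ w : W, {x : Ω | w • x ≠ x}.Finite) (x : Ω) (F : Set Ω)
    (hF : F.Finite) : ∃ Δ : Set Ω, Δ.Finite ∧ F ⊆ Δ ∧ x ∈ Δ ∧ IsBlock W Δ := by
  induction F, hF using Set.Finite.induction_on with
  | empty => exact ⟨{x}, Set.finite_singleton x, Set.empty_subset _, rfl, IsBlock.singleton⟩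
  | @insert y F _ _ ih =>
    obtain ⟨Δ, hΔfin, hFΔ, hxΔ, hΔ⟩ := ih
    by_cases hy : y ∈ Δ
    · exact ⟨Δ, hΔfin, Set.insert_subset hy hFΔ, hxΔ, hΔ⟩
    obtain ⟨s, hs⟩ := exists_smul_eq W x y
    set U : Subgroup W := Subgroup.closure ((stabilizer W Δ : Set W) ∪ {s}) with hU
    have hstab : stabilizer W Δ ≤ U := fun w hw => Subgroup.subset_closure (Or.inl hw)
    have hsU : s ∈ U := Subgroup.subset_closure (Or.inr rfl)
    have hxU : stabilizer W x ≤ U := (hΔ.stabilizer_le hxΔ).trans hstab
    have hsub : Δ ⊆ orbit U x := by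
      rw [← hΔ.orbit_stabilizer_eq hxΔ]
      rintro _ ⟨⟨w, hw⟩, rfl⟩
      exact ⟨⟨w, hstab hw⟩, rfl⟩
    refine ⟨orbit U x, ?_, ?_, mem_orbit_self x, IsBlock.of_orbit hxU⟩
    · refine (hfin s).subset ?_
      rintro _ ⟨⟨u, hu⟩, rfl⟩ hz
      have hz' : s • (u • x) = u • x := hz
      have h1 : u⁻¹ * s * (u⁻¹)⁻¹ ∈ stabilizer W Δ := by
        apply hΔ.stabilizer_le hxΔ
        rw [mem_stabilizer_iff, inv_inv, mul_smul, mul_smul, hz', inv_smul_smul]
      have h2 : s ∈ stabilizer W Δ := by
        refine key_lemma hW (fun T hT => finite_closure hfin T hT) _ s u⁻¹ (inv_mem hu) h1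
      apply hy
      rw [mem_stabilizer_iff] at h2
      rw [← hs, ← h2]
      exact Set.smul_mem_smul_set hxΔ
    · refine Set.insert_subset ?_ (hFΔ.trans hsub)
      exact ⟨⟨s, hsU⟩, hs⟩

end

/-! ### Sylow subgroups of the pointwise stabilisers of complements of finite blocks -/

theorem isPGroup_iSup_of_le_normalizer {G : Type*} [Group G] {p : ℕ} {ι : Type*}
    (Q : ι → Subgroup G) (h : ∀ i, IsPGroup p (Q i))
    (hn : ∀ i j, Q j ≤ Subgroup.normalizer (Q i : Set G)) :
    IsPGroup p (⨆ i, Q i : Subgroup G) := by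
  set B : Subgroup G := ⨆ i, Q i with hB
  have hle : ∀ i, Q i ≤ B := fun i => le_iSup Q i
  have hBn : ∀ i, B ≤ Subgroup.normalizer (Q i : Set G) := fun i => iSup_le (hn i)
  have hnorm : ∀ i, ((Q i).subgroupOf B).Normal := fun i =>
    Subgroup.normal_subgroupOf_of_le_normalizer (hBn i)
  have key : IsPGroup p (⨆ i, (Q i).subgroupOf B : Subgroup B) :=
    Sylow.iSup_of_normal _ fun i => (h i).comap_subtype
  have h1 := key.map B.subtype
  have h2 : Subgroup.map B.subtype (⨆ i, (Q i).subgroupOf B) = B := by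
    rw [Subgroup.map_iSup]
    conv_rhs => rw [hB]
    exact iSup_congr fun i => Subgroup.map_subgroupOf_eq_of_le (hle i)
  rwa [h2] at h1

/-- A finite subgroup normalised by a `p`-subgroup `R` has a Sylow subgroup normalised by `R`. -/
theorem exists_invariant_sylow {G : Type*} [Group G] {p : ℕ} [Fact p.Prime] (H R : Subgroup G)
    [Finite H] (hR : IsPGroup p R) (hRH : R ≤ Subgroup.normalizer (H : Set G)) :
    ∃ P : Sylow p H, ∀ r ∈ R, ∀ g ∈ (P : Subgroup H).map H.subtype,
      r * g * r⁻¹ ∈ (P : Subgroup H).map H.subtype := by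
  let _ : MulDistribMulAction R H :=
    MulDistribMulAction.compHom H (H.normalizerMonoidHom.comp (Subgroup.inclusion hRH))
  have hfin : Finite (Sylow p H) := inferInstance
  obtain ⟨P, hP⟩ := hR.nonempty_fixed_point_of_prime_not_dvd_card (Sylow p H)
    (not_dvd_card_sylow p H)
  refine ⟨P, ?_⟩
  rintro r hr _ ⟨g, hg, rfl⟩
  have h1 : (⟨r, hr⟩ : R) • P = P := hP ⟨r, hr⟩
  have h2 : (⟨r, hr⟩ : R) • g ∈ (P : Subgroup H) := by
    rw [← h1]
    exact Subgroup.smul_mem_pointwise_smul g (⟨r, hr⟩ : R) (P : Subgroup H) hg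
  exact ⟨_, h2, rfl⟩

section
variable {G Ω : Type*} [Group G] [MulAction G Ω] [FaithfulSMul G Ω] {p : ℕ} [Fact p.Prime]

/-- If `Δ` is a finite block of the maximal `p`-subgroup `S`, then `S` meets the pointwise
stabiliser of the complement of `Δ` in a Sylow `p`-subgroup of that finite group. -/
theorem not_dvd_index_of_block (S : Sylow p G) (Δ : Set Ω) (hΔfin : Δ.Finite)
    (hΔ : IsBlock (S : Subgroup G) Δ) :
    ¬ p ∣ ((S : Subgroup G).subgroupOf (fixingSubgroup G Δᶜ)).index := by
  set H : Subgroup G := fixingSubgroup G Δᶜ with hH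
  have hHfin : Finite H := finite_fixing hΔfin
  set R : Subgroup G := (stabilizer (S : Subgroup G) Δ).map (S : Subgroup G).subtype with hR
  have hRp : IsPGroup p R := (S.isPGroup'.to_subgroup _).map _
  have memR : ∀ r : (S : Subgroup G), r • Δ = Δ → (r : G) ∈ R := fun r hr => ⟨r, hr, rfl⟩
  have memH : ∀ g : G, g ∈ H ↔ ∀ y ∉ Δ, g • y = y := fun g => mem_fixingSubgroup_iff G
  have hRH : R ≤ Subgroup.normalizer (H : Set G) := by
    rintro _ ⟨r, hr, rfl⟩
    have hr' : r • Δ = Δ := hr
    have hr'' : r⁻¹ • Δ = Δ := by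
      rw [inv_smul_eq_iff]; exact hr'.symm
    have aux : ∀ t : (S : Subgroup G), t • Δ = Δ → ∀ h : G, h ∈ H → (t : G)⁻¹ * h * (t : G) ∈ H := by
      intro t ht h hh
      rw [memH] at hh ⊢
      intro y hy
      have : (t : G) • y ∉ Δ := by
        intro hc
        apply hy
        have : t • y ∈ t • Δ := by rw [ht]; exact hc
        exact (Set.smul_mem_smul_set_iff).1 this
      rw [mul_smul, mul_smul, hh _ this, inv_smul_smul]
    rw [Subgroup.mem_normalizer_iff]
    intro h
    constructor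
    · intro hh
      have := aux r⁻¹ hr'' h hh
      simpa using this
    · intro hh
      have := aux r hr' _ hh
      simpa [mul_assoc] using this
  obtain ⟨P, hP⟩ := exists_invariant_sylow H R hRp hRH
  set P' : Subgroup G := (P : Subgroup H).map H.subtype with hP'
  have hP'H : P' ≤ H := by
    rw [hP']; exact Subgroup.map_subtype_le _
  have hP'p : IsPGroup p P' := P.isPGroup'.map _
  let Q : ↥(S : Subgroup G) → Subgroup G := fun s => P'.map (MulAut.conj (s : G)).toMonoidHom
  have memQ : ∀ (s : (S : Subgroup G)) (g : G), g ∈ Q s ↔ (s : G)⁻¹ * g * (s : G) ∈ P' := by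
    intro s g
    constructor
    · rintro ⟨h, hh, rfl⟩
      simpa [mul_assoc] using hh
    · intro h
      refine ⟨_, h, ?_⟩
      simp [mul_assoc]
  have hQp : ∀ s, IsPGroup p (Q s) := fun s => hP'p.map _
  have hQeq : ∀ s t : (S : Subgroup G), s • Δ = t • Δ → Q s = Q t := by
    have aux : ∀ s t : (S : Subgroup G), s • Δ = t • Δ → Q s ≤ Q t := by
      intro s t hst g hg
      rw [memQ] at hg ⊢
      have hr : (t⁻¹ * s) • Δ = Δ := by rw [mul_smul, hst, inv_smul_smul]
      have := hP _ (memR _ hr) _ hg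
      simpa [mul_assoc] using this
    intro s t hst
    exact le_antisymm (aux s t hst) (aux t s hst.symm)
  have hQsupp : ∀ (s : (S : Subgroup G)) (g : G), g ∈ Q s → ∀ y : Ω, y ∉ s • Δ → g • y = y := by
    intro s g hg y hy
    rw [memQ] at hg
    have h1 := (memH _).1 (hP'H hg) ((s : G)⁻¹ • y) ?_
    · rw [mul_smul, mul_smul, smul_inv_smul, smul_left_cancel_iff] at h1
      exact h1
    · intro hc
      apply hy
      rw [Set.mem_smul_set_iff_inv_smul_mem]
      exact hc
  have hQmem : ∀ (s : (S : Subgroup G)) (g : G), g ∈ Q s → ∀ y : Ω, y ∈ s • Δ → g • y ∈ s • Δ := by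
    intro s g hg y hy
    by_contra hc
    have h1 := hQsupp s g hg _ hc
    have h2 : g • y = y := smul_left_cancel g h1
    exact hc (by rw [h2]; exact hy)
  have hcomm : ∀ s t : (S : Subgroup G), s • Δ ≠ t • Δ → ∀ a ∈ Q s, ∀ b ∈ Q t, a * b = b * a := by
    intro s t hst a ha b hb
    have hdisj := hΔ hst
    apply FaithfulSMul.eq_of_smul_eq_smul (α := Ω)
    intro y
    rw [mul_smul, mul_smul]
    by_cases h1 : y ∈ s • Δ
    · have h2 : y ∉ t • Δ := Set.disjoint_left.1 hdisj h1
      rw [hQsupp t b hb y h2]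
      have h3 : a • y ∈ s • Δ := hQmem s a ha y h1
      rw [hQsupp t b hb _ (Set.disjoint_left.1 hdisj h3)]
    · rw [hQsupp s a ha y h1]
      by_cases h2 : y ∈ t • Δ
      · have h3 : b • y ∈ t • Δ := hQmem t b hb y h2
        rw [hQsupp s a ha _ (Set.disjoint_right.1 hdisj h3)]
      · rw [hQsupp t b hb y h2, hQsupp s a ha y h1]
  have hQnorm : ∀ s t : (S : Subgroup G), Q t ≤ Subgroup.normalizer (Q s : Set G) := by
    intro s t
    by_cases hst : s • Δ = t • Δ
    · rw [hQeq s t hst]
      exact Subgroup.le_normalizer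
    · intro b hb
      rw [Subgroup.mem_normalizer_iff]
      intro a
      constructor
      · intro ha
        rw [← hcomm s t hst a ha b hb, mul_inv_cancel_right]
        exact ha
      · intro ha
        have h1 := hcomm s t hst _ ha b hb
        have h2 : a = b * a * b⁻¹ := by
          have : b * a = b * (b * a * b⁻¹) := by rw [← h1]; group
          exact mul_left_cancel this
        rw [h2]; exact ha
  set B : Subgroup G := ⨆ s, Q s with hB
  have hBp : IsPGroup p B := isPGroup_iSup_of_le_normalizer Q hQp hQnorm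
  have hconj : ∀ (s : (S : Subgroup G)), ∀ g ∈ B, (s : G) * g * (s : G)⁻¹ ∈ B := by
    intro s g hg
    have hle : B ≤ B.comap (MulAut.conj (s : G)).toMonoidHom := by
      conv_lhs => rw [hB]
      refine iSup_le fun t => ?_
      intro x hx
      rw [Subgroup.mem_comap]
      refine Subgroup.mem_iSup_of_mem (s * t) ?_
      rw [memQ] at hx ⊢
      simpa [mul_assoc] using hx
    simpa using hle hg
  have hSB : (S : Subgroup G) ≤ Subgroup.normalizer (B : Set G) := by
    intro s hs
    rw [Subgroup.mem_normalizer_iff]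
    intro g
    constructor
    · exact hconj ⟨s, hs⟩ g
    · intro hg
      have := hconj (⟨s, hs⟩ : (S : Subgroup G))⁻¹ _ hg
      simpa [mul_assoc] using this
  have hSBp : IsPGroup p ((S : Subgroup G) ⊔ B : Subgroup G) :=
    S.isPGroup'.to_sup_of_normal_right' hBp hSB
  have hBS : B ≤ S := by
    have := S.is_maximal' hSBp le_sup_left
    rw [← this]
    exact le_sup_right
  have hP'S : P' ≤ S := by
    refine le_trans ?_ hBS
    refine le_trans ?_ (le_iSup Q 1)
    intro g hg
    rw [memQ]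
    simpa using hg
  have hle : (P : Subgroup H) ≤ (S : Subgroup G).subgroupOf H := by
    intro g hg
    rw [Subgroup.mem_subgroupOf]
    exact hP'S ⟨g, hg, rfl⟩
  intro hdvd
  exact P.not_dvd_index (hdvd.trans (Subgroup.index_dvd_of_le hle))

/-- Every element of `G` lies in a finite subgroup `H` in which `S ∩ H` has index prime
to `p`. -/
theorem exists_finite_subgroup (hfin : ∀ g : G, {x : Ω | g • x ≠ x}.Finite) (S : Sylow p G)
    [IsPretransitive (S : Subgroup G) Ω] (g : G) :
    ∃ H : Subgroup G, Finite H ∧ g ∈ H ∧ ¬ p ∣ ((S : Subgroup G).subgroupOf H).index := by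
  by_cases hΩ : Nonempty Ω
  · obtain ⟨x⟩ := hΩ
    obtain ⟨Δ, hΔfin, hFΔ, -, hΔ⟩ := exists_finite_block (W := (S : Subgroup G)) (Ω := Ω)
      S.isPGroup' (fun w => hfin (w : G)) x {y : Ω | g • y ≠ y} (hfin g)
    refine ⟨fixingSubgroup G Δᶜ, finite_fixing hΔfin, ?_, not_dvd_index_of_block S Δ hΔfin hΔ⟩
    rw [mem_fixingSubgroup_iff]
    intro y hy
    by_contra hc
    exact hy (hFΔ hc)
  · have hg : g = 1 := by
      apply FaithfulSMul.eq_of_smul_eq_smul (α := Ω)
      intro x
      exact (hΩ ⟨x⟩).elim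
    refine ⟨⊥, inferInstance, by simp [hg], ?_⟩
    have : ((S : Subgroup G).subgroupOf (⊥ : Subgroup G)).index = 1 := by
      rw [Subgroup.index_eq_one]
      exact Subsingleton.elim _ _
    rw [this]
    exact (Fact.out : p.Prime).one_lt.ne' ∘ Nat.dvd_one.1

/-- A classical fact on finite groups: a `p`-subgroup of a normal subgroup `N` containing
`P ∩ N`, with `P` a Sylow `p`-subgroup, is contained in `P`. -/
theorem le_of_finite {H : Type*} [Group H] [Finite H] (P : Sylow p H) (N Q : Subgroup H)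
    [N.Normal] (hQ : IsPGroup p Q) (hQN : Q ≤ N) (hPQ : (P : Subgroup H) ⊓ N ≤ Q) :
    Q ≤ (P : Subgroup H) := by
  obtain ⟨P₂, hP₂⟩ := hQ.exists_le_sylow
  obtain ⟨h, hh⟩ := MulAction.exists_smul_eq H P P₂
  have h1 : Q ≤ ((P : Subgroup H) ⊓ N).map (MulAut.conj h).toMonoidHom := by
    intro q hq
    have hq2 : q ∈ (P₂ : Subgroup H) := hP₂ hq
    rw [← hh] at hq2
    obtain ⟨x, hx, hxq⟩ := hq2
    refine ⟨x, ⟨hx, ?_⟩, hxq⟩
    have hqN := hQN hq
    have hxq' : h * x * h⁻¹ = q := hxq
    have := (inferInstance : N.Normal).conj_mem _ hqN h⁻¹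
    rw [← hxq'] at this
    simpa [mul_assoc] using this
  have h2 : Nat.card (((P : Subgroup H) ⊓ N).map (MulAut.conj h).toMonoidHom)
      = Nat.card ((P : Subgroup H) ⊓ N : Subgroup H) :=
    (Nat.card_congr (Subgroup.equivMapOfInjective _ _ (MulAut.conj h).injective).toEquiv).symm
  have h3 : Nat.card Q ≤ Nat.card ((P : Subgroup H) ⊓ N : Subgroup H) := by
    rw [← h2]
    exact Nat.card_le_card_of_injective _ (Subgroup.inclusion_injective h1)
  have h4 : (P : Subgroup H) ⊓ N = Q := Subgroup.eq_of_le_of_card_ge hPQ h3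
  rw [← h4]
  exact inf_le_left

/-- `S ∩ N` is a Sylow `p`-subgroup of `N`. -/
theorem sylow_normal_abs (hfin : ∀ g : G, {x : Ω | g • x ≠ x}.Finite) (S : Sylow p G)
    [IsPretransitive (S : Subgroup G) Ω] (N : Subgroup G) [N.Normal] :
    ∃ T : Sylow p N, (T : Subgroup N) = (S : Subgroup G).subgroupOf N := by
  refine ⟨⟨(S : Subgroup G).subgroupOf N, S.isPGroup'.comap_subtype, ?_⟩, rfl⟩
  intro Q hQ hSQ
  refine le_antisymm ?_ hSQ
  intro q hq
  rw [Subgroup.mem_subgroupOf]
  obtain ⟨H, hHfin, hqH, hidx⟩ := exists_finite_subgroup hfin S (q : G)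
  let P : Sylow p H :=
    (S.isPGroup'.comap_subtype : IsPGroup p ((S : Subgroup G).subgroupOf H)).toSylow hidx
  have hP : (P : Subgroup H) = (S : Subgroup G).subgroupOf H := rfl
  have key := le_of_finite P (N.subgroupOf H) ((Q.map N.subtype).subgroupOf H)
    (hQ.map N.subtype).comap_subtype ?_ ?_
  · have hq1 : (⟨q, hqH⟩ : H) ∈ (Q.map N.subtype).subgroupOf H := ⟨q, hq, rfl⟩
    have hq2 := key hq1
    rw [hP, Subgroup.mem_subgroupOf] at hq2
    exact hq2
  · intro x hx
    rw [Subgroup.mem_subgroupOf] at hx ⊢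
    exact Subgroup.map_subtype_le _ hx
  · intro x hx
    rw [hP] at hx
    obtain ⟨hx1, hx2⟩ := Subgroup.mem_inf.1 hx
    rw [Subgroup.mem_subgroupOf] at hx1 hx2
    rw [Subgroup.mem_subgroupOf]
    exact ⟨⟨x, hx2⟩, hSQ (by rw [Subgroup.mem_subgroupOf]; exact hx1), rfl⟩

/-- `S N / N` is a Sylow `p`-subgroup of `G / N`. -/
theorem sylow_quotient_abs (hfin : ∀ g : G, {x : Ω | g • x ≠ x}.Finite) (S : Sylow p G)
    [IsPretransitive (S : Subgroup G) Ω] (N : Subgroup G) [N.Normal] :
    ∃ T : Sylow p (G ⧸ N),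
      (T : Subgroup (G ⧸ N)) = (S : Subgroup G).map (QuotientGroup.mk' N) := by
  refine ⟨⟨(S : Subgroup G).map (QuotientGroup.mk' N), S.isPGroup'.map _, ?_⟩, rfl⟩
  intro Q hQ hSQ
  refine le_antisymm ?_ hSQ
  intro q hq
  obtain ⟨g, rfl⟩ := QuotientGroup.mk'_surjective N q
  obtain ⟨H, hHfin, hgH, hidx⟩ := exists_finite_subgroup hfin S g
  let P : Sylow p H :=
    (S.isPGroup'.comap_subtype : IsPGroup p ((S : Subgroup G).subgroupOf H)).toSylow hidx
  have hP : (P : Subgroup H) = (S : Subgroup G).subgroupOf H := rfl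
  let f : H →* G ⧸ N := (QuotientGroup.mk' N).comp H.subtype
  have hf : Function.Surjective f.rangeRestrict := f.rangeRestrict_surjective
  let P' : Sylow p f.range := P.mapSurjective hf
  have hP' : (P' : Subgroup f.range) = (P : Subgroup H).map f.rangeRestrict := rfl
  have hmax := P'.is_maximal' (Q := Q.subgroupOf f.range) hQ.comap_subtype ?_
  · have h1 : (⟨f ⟨g, hgH⟩, ⟨⟨g, hgH⟩, rfl⟩⟩ : f.range) ∈ Q.subgroupOf f.range := hq
    rw [hmax] at h1
    have h1' : (⟨f ⟨g, hgH⟩, ⟨⟨g, hgH⟩, rfl⟩⟩ : f.range)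
        ∈ (P : Subgroup H).map f.rangeRestrict := h1
    obtain ⟨s, hs, hsg⟩ := h1'
    refine ⟨s, ?_, ?_⟩
    · have : s ∈ (S : Subgroup G).subgroupOf H := hs
      rw [Subgroup.mem_subgroupOf] at this
      exact this
    · exact congrArg Subtype.val hsg
  · intro x hx
    have hx' : x ∈ (P : Subgroup H).map f.rangeRestrict := hx
    obtain ⟨s, hs, rfl⟩ := hx'
    have hs' : s ∈ (S : Subgroup G).subgroupOf H := hs
    rw [Subgroup.mem_subgroupOf] at hs'
    rw [Subgroup.mem_subgroupOf]
    exact hSQ ⟨s, hs', rfl⟩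

end

end Pool.Agent.Lib.H69.FinitarySylow
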